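import Pool.Agent.W_MP_68deb0_an.Top
import Pool.Agent.W_MP_68deb0_an.Ellp

/-!
# Kalton's question for spaces containing uniformly complemented `ℓ_p^N`, `0 < p < 1`

A real topological vector space with uniformly complemented copies of `ℓ_p^N` for some `p < 1`
is neither a uniform nor a coarse retract of a normed space. In particular `ℓ_p` is not uniformly
homeomorphic to a Banach space.
-/

namespace Pool.Agent.Results.MP_68deb0_an.EllpNotUniformRetract

open Pool.Agent.W68deb0 Topology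

theorem result :
    (∀ ω : ℝ → ℝ, SteepModulus ω → ∀ (E : Type) [AddCommGroup E] [Module ℝ E] [UniformSpace E]
      [IsUniformAddGroup E], HasCubes ω E → NoNormedRetraction E) ∧
    (∀ ω : ℝ → ℝ, SteepModulus ω → ∀ (E : Type) [AddCommGroup E] [Module ℝ E] [UniformSpace E]
      [IsUniformAddGroup E], HasSystems ω E → NoNormedRetraction E) ∧
    (∀ p : ℝ, 0 < p → p < 1 → ∀ (E : Type) [AddCommGroup E] [Module ℝ E] [UniformSpace E]
      [IsUniformAddGroup E], HasComplementedEllp p E → NoNormedRetraction E) ∧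
    (∀ p : Set.Ioo (0 : ℝ) 1,
      (ContinuousSMul ℝ (EllP p) ∧ CompleteSpace (EllP p) ∧
        (∃ U ∈ 𝓝 (0 : EllP p), Bornology.IsVonNBounded ℝ U) ∧
        ¬ LocallyConvexSpace ℝ (EllP p)) ∧
      NoNormedRetraction (EllP p) ∧
      ∀ (F : Type) [NormedAddCommGroup F] [NormedSpace ℝ F], IsEmpty (EllP p ≃ᵤ F)) := by
  have h1 : ∀ ω : ℝ → ℝ, SteepModulus ω → ∀ (E : Type) [AddCommGroup E] [Module ℝ E]
      [UniformSpace E] [IsUniformAddGroup E], HasCubes ω E → NoNormedRetraction E := by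
    intro ω hω E _ _ _ _ hE F _ _ f g
    exact ⟨fun h => no_uniform hω hE f g h.1 h.2.1 h.2.2, no_coarse hω hE f g⟩
  have h2 : ∀ p : ℝ, 0 < p → p < 1 → ∀ (E : Type) [AddCommGroup E] [Module ℝ E]
      [UniformSpace E] [IsUniformAddGroup E], HasComplementedEllp p E →
      NoNormedRetraction E := by
    intro p hp0 hp1 E _ _ _ _ hE
    exact h1 _ (steep_rpow hp0 hp1) E (hE.hasSystems.hasCubes (steep_rpow hp0 hp1))
  refine ⟨h1, fun ω hω E _ _ _ _ hE => h1 ω hω E (hE.hasCubes hω), h2, fun p => ?_⟩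
  have h3 : NoNormedRetraction (EllP p) := h2 p p.2.1 p.2.2 _ EllP.hasComplementedEllp
  refine ⟨⟨inferInstance, inferInstance, ⟨_, EllP.ball_mem_nhds, EllP.isVonNBounded_ball⟩,
    EllP.not_locallyConvex⟩, h3, ?_⟩
  intro F _ _
  refine ⟨fun e => ?_⟩
  exact (h3 F e e.symm).1 ⟨e.uniformContinuous, e.symm.uniformContinuous,
    fun x => e.symm_apply_apply x⟩

end Pool.Agent.Results.MP_68deb0_an.EllpNotUniformRetract
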