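import Mathlib
import Pool.Agent.W_68deb0.Orlicz

/-!
Orlicz sequence spaces: a locally bounded Orlicz sequence space which is a uniform retract of a
normed space (for example, which is uniformly homeomorphic to a Banach space) is locally convex.
-/

open Topology

universe u v

namespace Pool.Agent.Results.MP_68deb0_an.OrliczSpaces

theorem result :
    ∀ (X : Type u) [AddCommGroup X] [Module ℝ X] [UniformSpace X] [IsUniformAddGroup X]
      [ContinuousSMul ℝ X] (Y : Type v) [NormedAddCommGroup Y] [NormedSpace ℝ Y]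
      (f : X → Y) (g : Y → X), UniformContinuous f → UniformContinuous g → (∀ x, g (f x) = x) →
    ∀ (M : ℝ → ℝ), MonotoneOn M (Set.Ici 0) → M 0 = 0 → (∀ t, 0 < t → 0 < M t) →
    ∀ (B U : Set X), Bornology.IsVonNBounded ℝ B → U ∈ 𝓝 (0 : X) →
      (∀ n : ℕ, ∃ (σ : (Fin n → ℝ) →ₗ[ℝ] X) (π : X →L[ℝ] (Fin n → ℝ)), (∀ x, π (σ x) = x) ∧
        (∀ a : Fin n → ℝ, ∑ i, M |a i| ≤ 1 → σ a ∈ B) ∧ ∀ u ∈ U, ∑ i, M |π u i| ≤ 1) →
      ∃ K : ℝ, ∀ s t, 0 < s → s ≤ t → M t ≤ 1 → M s / s ≤ K * (M t / t) := by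
  intro X _ _ _ _ _ Y _ _ f g hf hg hgf M hmono hM0 hMpos B U hB hU hX
  exact W68deb0.orlicz hf hg hgf M hmono hM0 hMpos hB hU hX

end Pool.Agent.Results.MP_68deb0_an.OrliczSpaces
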