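import Mathlib
import Pool.Agent.W_68deb0.VolRatio

/-!
Volume ratio theorem: a real topological vector space which is a uniform retract of a normed
space (for example, which is uniformly homeomorphic to a Banach space) has bounded volume ratios:
on `n`-dimensional spaces which are the image of a projection, passing from a bounded set to its
convex hull increases the volume at most by a factor `C ^ n`.
-/

open MeasureTheory Topology
open scoped Pointwise ENNReal NNReal

universe u v

namespace Pool.Agent.Results.MP_68deb0_an.VolumeRatio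

theorem result :
    ∀ (X : Type u) [AddCommGroup X] [Module ℝ X] [UniformSpace X] [IsUniformAddGroup X]
      [ContinuousSMul ℝ X] (Y : Type v) [NormedAddCommGroup Y] [NormedSpace ℝ Y]
      (f : X → Y) (g : Y → X), UniformContinuous f → UniformContinuous g → (∀ x, g (f x) = x) →
    ∀ (B U : Set X), Bornology.IsVonNBounded ℝ B → U ∈ 𝓝 (0 : X) →
      ∃ C : ℝ≥0, ∀ (n : ℕ) (σ : (Fin n → ℝ) →ₗ[ℝ] X) (π : X →L[ℝ] (Fin n → ℝ)),
        (∀ x, π (σ x) = x) →
        volume (convexHull ℝ (σ ⁻¹' B)) ≤ (C : ℝ≥0∞) ^ n * volume (π '' U) := by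
  intro X _ _ _ _ _ Y _ _ f g hf hg hgf B U hB hU
  exact W68deb0.vol_ratio hf hg hgf hB hU

end Pool.Agent.Results.MP_68deb0_an.VolumeRatio
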